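import Pool.Agent.H99.TF.Newton

/-!
# Positivity of the Coulomb form (Tonelli level)
-/

open MeasureTheory Real Set
open scoped ENNReal

namespace Pool.Agent.H29.TF

@[fun_prop]
theorem measurable_ofReal_hk (t : ℝ) : Measurable (fun x : E3 => ENNReal.ofReal (hk t x)) :=
  ((continuous_hk t).measurable).ennreal_ofReal

/-- heat smoothing of an extended nonnegative density -/
noncomputable def Gt (t : ℝ) (f : E3 → ℝ≥0∞) (w : E3) : ℝ≥0∞ :=
  ∫⁻ x, ENNReal.ofReal (hk t (x - w)) * f x

noncomputable def LQ (t : ℝ) (f g : E3 → ℝ≥0∞) : ℝ≥0∞ :=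
  ∫⁻ x, ∫⁻ y, f x * g y * ENNReal.ofReal (hk t (x - y))

/-- Coulomb form with values in `[0, ∞]` -/
noncomputable def LC (f g : E3 → ℝ≥0∞) : ℝ≥0∞ :=
  ∫⁻ x, ∫⁻ y, f x * g y * ENNReal.ofReal (1 / ‖x - y‖)

theorem ofReal_semigroup {t : ℝ} (ht : 0 < t) (x y : E3) :
    ∫⁻ w : E3, ENNReal.ofReal (hk (t / 2) (x - w)) * ENNReal.ofReal (hk (t / 2) (w - y)) =
      ENNReal.ofReal (hk t (x - y)) := by
  have h2 : 0 < t / 2 := by positivity
  have hs := semigroup_hk (V := E3) h2 h2 x y
  rw [show t / 2 + t / 2 = t by ring] at hs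
  rw [← hs, ofReal_integral_eq_lintegral_ofReal]
  · refine lintegral_congr fun w => ?_
    rw [ENNReal.ofReal_mul (hk_nonneg h2.le _)]
  · exact integrable_hk_mul h2 (Continuous.aestronglyMeasurable (by fun_prop))
      (C := hk (t / 2) (0 : E3)) (fun w => by
        rw [abs_of_nonneg (hk_nonneg h2.le _)]; exact hk_le h2 _) x
  · exact Filter.Eventually.of_forall fun w => mul_nonneg (hk_nonneg h2.le _) (hk_nonneg h2.le _)

theorem measurable_Gt (t : ℝ) {f : E3 → ℝ≥0∞} (hf : Measurable f) : Measurable (Gt t f) := by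
  unfold Gt
  apply Measurable.lintegral_prod_right' (f := fun p : E3 × E3 => ENNReal.ofReal (hk t (p.2 - p.1)) * f p.2)
  fun_prop

theorem LQ_eq {t : ℝ} (ht : 0 < t) {f g : E3 → ℝ≥0∞} (hf : Measurable f) (hg : Measurable g) :
    LQ t f g = ∫⁻ w, Gt (t / 2) f w * Gt (t / 2) g w := by
  have hG := measurable_Gt (t / 2) hg
  symm
  calc ∫⁻ w, Gt (t / 2) f w * Gt (t / 2) g w
      = ∫⁻ w, ∫⁻ x, (ENNReal.ofReal (hk (t / 2) (x - w)) * f x) * Gt (t / 2) g w := by
        refine lintegral_congr fun w => ?_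
        rw [lintegral_mul_const _ (by fun_prop)]; rfl
    _ = ∫⁻ x, ∫⁻ w, (ENNReal.ofReal (hk (t / 2) (x - w)) * f x) * Gt (t / 2) g w := by
        apply lintegral_lintegral_swap
        apply Measurable.aemeasurable
        apply Measurable.mul
        · fun_prop
        · exact hG.comp measurable_fst
    _ = ∫⁻ x, ∫⁻ y, f x * g y * ENNReal.ofReal (hk t (x - y)) := by
        refine lintegral_congr fun x => ?_
        calc ∫⁻ w, (ENNReal.ofReal (hk (t / 2) (x - w)) * f x) * Gt (t / 2) g w
            = ∫⁻ w, ∫⁻ y, (ENNReal.ofReal (hk (t / 2) (x - w)) * f x) *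
                (ENNReal.ofReal (hk (t / 2) (y - w)) * g y) := by
              refine lintegral_congr fun w => ?_
              rw [lintegral_const_mul _ (by fun_prop)]; rfl
          _ = ∫⁻ y, ∫⁻ w, (ENNReal.ofReal (hk (t / 2) (x - w)) * f x) *
                (ENNReal.ofReal (hk (t / 2) (y - w)) * g y) := by
              apply lintegral_lintegral_swap
              apply Measurable.aemeasurable
              fun_prop
          _ = ∫⁻ y, f x * g y * ENNReal.ofReal (hk t (x - y)) := by
              refine lintegral_congr fun y => ?_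
              rw [← ofReal_semigroup ht x y, ← lintegral_const_mul _ (by fun_prop)]
              refine lintegral_congr fun w => ?_
              rw [hk_sub_comm (t / 2) y w]
              ring

theorem ae_ne_prod : ∀ x : E3, ∀ᵐ y : E3, x ≠ y := by
  intro x
  have : (volume : Measure E3) {x} = 0 := measure_singleton x
  refine (measure_eq_zero_iff_ae_notMem.1 this).mono fun y hy h => hy ?_
  rw [h]; rfl

theorem LC_eq {f g : E3 → ℝ≥0∞} (hf : Measurable f) (hg : Measurable g) :
    LC f g = ENNReal.ofReal (4 * π) * ∫⁻ t in Ioi (0 : ℝ), LQ t f g := by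
  have hm : Measurable (fun p : ℝ × E3 => ENNReal.ofReal (hk p.1 p.2)) :=
    (measurable_hk_uncurry (V := E3)).ennreal_ofReal
  unfold LC LQ
  calc ∫⁻ x, ∫⁻ y, f x * g y * ENNReal.ofReal (1 / ‖x - y‖)
      = ∫⁻ x, ∫⁻ y, f x * g y * (ENNReal.ofReal (4 * π) *
          ∫⁻ t in Ioi (0 : ℝ), ENNReal.ofReal (hk t (x - y))) := by
        refine lintegral_congr fun x => ?_
        refine lintegral_congr_ae ((ae_ne_prod x).mono fun y hy => ?_)
        show f x * g y * ENNReal.ofReal (1 / ‖x - y‖) = _
        rw [lintegral_hk_Ioi (sub_ne_zero.2 hy)]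
    _ = ∫⁻ x, ENNReal.ofReal (4 * π) * ∫⁻ t in Ioi (0 : ℝ), ∫⁻ y,
          f x * g y * ENNReal.ofReal (hk t (x - y)) := by
        refine lintegral_congr fun x => ?_
        have hmx : Measurable (fun p : E3 × ℝ => f x * g p.1 * ENNReal.ofReal (hk p.2 (x - p.1))) := by
          apply Measurable.mul
          · fun_prop
          · exact hm.comp (by fun_prop : Measurable fun p : E3 × ℝ => (p.2, x - p.1))
        calc ∫⁻ y, f x * g y * (ENNReal.ofReal (4 * π) *
              ∫⁻ t in Ioi (0 : ℝ), ENNReal.ofReal (hk t (x - y)))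
            = ∫⁻ y, ENNReal.ofReal (4 * π) * ∫⁻ t in Ioi (0 : ℝ),
                f x * g y * ENNReal.ofReal (hk t (x - y)) := by
              refine lintegral_congr fun y => ?_
              rw [lintegral_const_mul]
              · ring
              · exact hm.comp (by fun_prop : Measurable fun t : ℝ => (t, x - y))
          _ = ENNReal.ofReal (4 * π) * ∫⁻ y, ∫⁻ t in Ioi (0 : ℝ),
                f x * g y * ENNReal.ofReal (hk t (x - y)) := by
              rw [lintegral_const_mul]
              exact Measurable.lintegral_prod_right' hmx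
          _ = _ := by
              rw [lintegral_lintegral_swap hmx.aemeasurable]
    _ = ENNReal.ofReal (4 * π) * ∫⁻ x, ∫⁻ t in Ioi (0 : ℝ), ∫⁻ y,
          f x * g y * ENNReal.ofReal (hk t (x - y)) := by
        rw [lintegral_const_mul]
        apply Measurable.lintegral_prod_right' (f := fun p : E3 × ℝ =>
          ∫⁻ y, f p.1 * g y * ENNReal.ofReal (hk p.2 (p.1 - y)))
        apply Measurable.lintegral_prod_right' (f := fun q : (E3 × ℝ) × E3 =>
          f q.1.1 * g q.2 * ENNReal.ofReal (hk q.1.2 (q.1.1 - q.2)))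
        apply Measurable.mul
        · fun_prop
        · exact hm.comp (by fun_prop : Measurable fun q : (E3 × ℝ) × E3 => (q.1.2, q.1.1 - q.2))
    _ = _ := by
        rw [lintegral_lintegral_swap]
        apply Measurable.aemeasurable
        apply Measurable.lintegral_prod_right' (f := fun q : (E3 × ℝ) × E3 =>
          f q.1.1 * g q.2 * ENNReal.ofReal (hk q.1.2 (q.1.1 - q.2)))
        apply Measurable.mul
        · fun_prop
        · exact hm.comp (by fun_prop : Measurable fun q : (E3 × ℝ) × E3 => (q.1.2, q.1.1 - q.2))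

theorem two_mul_le_sq (a b : ℝ≥0∞) : 2 * (a * b) ≤ a * a + b * b := by
  by_cases ha : a = ∞
  · subst ha
    simp
  by_cases hb : b = ∞
  · subst hb
    simp
  lift a to NNReal using ha
  lift b to NNReal using hb
  norm_cast
  have := two_mul_le_add_sq (a : ℝ) b
  have h2 : (2 * (a * b) : ℝ) ≤ a * a + b * b := by nlinarith
  exact_mod_cast h2

theorem two_LQ_le {t : ℝ} (ht : 0 < t) {f g : E3 → ℝ≥0∞} (hf : Measurable f) (hg : Measurable g) :
    2 * LQ t f g ≤ LQ t f f + LQ t g g := by
  rw [LQ_eq ht hf hg, LQ_eq ht hf hf, LQ_eq ht hg hg]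
  have h1 := measurable_Gt (t / 2) hf
  have h2 := measurable_Gt (t / 2) hg
  rw [← lintegral_add_left (by fun_prop), ← lintegral_const_mul _ (by fun_prop)]
  exact lintegral_mono fun w => two_mul_le_sq _ _

theorem two_LC_le {f g : E3 → ℝ≥0∞} (hf : Measurable f) (hg : Measurable g) :
    2 * LC f g ≤ LC f f + LC g g := by
  rw [LC_eq hf hg, LC_eq hf hf, LC_eq hg hg, ← mul_add]
  rw [show 2 * (ENNReal.ofReal (4 * π) * ∫⁻ t in Ioi (0 : ℝ), LQ t f g) =
    ENNReal.ofReal (4 * π) * (2 * ∫⁻ t in Ioi (0 : ℝ), LQ t f g) by ring]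
  gcongr
  have hm : Measurable (fun p : ℝ × E3 => ENNReal.ofReal (hk p.1 p.2)) :=
    (measurable_hk_uncurry (V := E3)).ennreal_ofReal
  have hLQ : ∀ {f g : E3 → ℝ≥0∞}, Measurable f → Measurable g → Measurable (fun t => LQ t f g) := by
    intro f g hf hg
    unfold LQ
    apply Measurable.lintegral_prod_right' (f := fun p : ℝ × E3 =>
      ∫⁻ y, f p.2 * g y * ENNReal.ofReal (hk p.1 (p.2 - y)))
    apply Measurable.lintegral_prod_right' (f := fun q : (ℝ × E3) × E3 =>
      f q.1.2 * g q.2 * ENNReal.ofReal (hk q.1.1 (q.1.2 - q.2)))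
    apply Measurable.mul
    · fun_prop
    · exact hm.comp (by fun_prop : Measurable fun q : (ℝ × E3) × E3 => (q.1.1, q.1.2 - q.2))
  rw [← lintegral_add_left (hLQ hf hf), ← lintegral_const_mul _ (hLQ hf hg)]
  exact setLIntegral_mono_ae (by
      have a1 := hLQ hf hf
      have a2 := hLQ hg hg
      exact (a1.add a2).aemeasurable)
    (Filter.Eventually.of_forall fun t ht => two_LQ_le ht hf hg)

end Pool.Agent.H29.TF
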