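import Pool.Agent.H29.TF.CoreDefs
import Pool.Agent.H82.TF.Iter

/-!
# PART I.3: reduction of `U_mono` to `C²` nonlinearities by mollification
-/

open MeasureTheory Real Set

namespace Pool.Agent.H29.TF
variable {k : ℕ}

namespace Moll

/-- mean value theorem -/
theorem mvt {F f : ℝ → ℝ} (hF : ∀ x, HasDerivAt F (f x) x) {a b : ℝ} (hab : a < b) :
    ∃ c ∈ Ioo a b, F b - F a = (b - a) * f c := by
  obtain ⟨c, hc, h⟩ := exists_hasDerivAt_eq_slope F f hab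
    (fun x _ => (hF x).continuousAt.continuousWithinAt) (fun x _ => hF x)
  refine ⟨c, hc, ?_⟩
  have : b - a ≠ 0 := by linarith [sub_pos.2 hab] |> fun (h : 0 < b - a) => h.ne'
  rw [h]; field_simp

/-- first step of the second difference -/
theorem diff_step {F f : ℝ → ℝ} (hF : ∀ x, HasDerivAt F (f x) x) {e : ℝ} (he : 0 < e) (u : ℝ) :
    ∃ c ∈ Ioo (u - e) u, F u - 2 * F (u - e) + F (u - 2 * e) = e * (f c - f (c - e)) := by
  have hD : ∀ x, HasDerivAt (fun x => F x - F (x - e)) (f x - f (x - e)) x := by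
    intro x
    exact (hF x).sub ((hF (x - e)).comp_sub_const x e)
  obtain ⟨c, hc, h⟩ := mvt hD (show u - e < u by linarith)
  refine ⟨c, hc, ?_⟩
  have e1 : u - e - e = u - 2 * e := by ring
  simp only [e1] at h
  have e2 : u - (u - e) = e := by ring
  rw [e2] at h
  linarith

variable (Γ : ℝ → ℝ)

noncomputable def G0 (u : ℝ) : ℝ := ∫ s in (0 : ℝ)..u, Γ s
noncomputable def G1 (u : ℝ) : ℝ := ∫ s in (0 : ℝ)..u, G0 Γ s

/-- mollification -/
noncomputable def Ge (e u : ℝ) : ℝ := (G1 Γ u - 2 * G1 Γ (u - e) + G1 Γ (u - 2 * e)) / e ^ 2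
noncomputable def Ge1 (e u : ℝ) : ℝ := (G0 Γ u - 2 * G0 Γ (u - e) + G0 Γ (u - 2 * e)) / e ^ 2
noncomputable def Ge2 (e u : ℝ) : ℝ := (Γ u - 2 * Γ (u - e) + Γ (u - 2 * e)) / e ^ 2

variable {Γ}

theorem hasDerivAt_G0 (hc : Continuous Γ) (u : ℝ) : HasDerivAt (G0 Γ) (Γ u) u :=
  (hc.integral_hasStrictDerivAt 0 u).hasDerivAt

theorem continuous_G0 (hc : Continuous Γ) : Continuous (G0 Γ) :=
  continuous_iff_continuousAt.2 fun u => (hasDerivAt_G0 hc u).continuousAt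

theorem hasDerivAt_G1 (hc : Continuous Γ) (u : ℝ) : HasDerivAt (G1 Γ) (G0 Γ u) u :=
  ((continuous_G0 hc).integral_hasStrictDerivAt 0 u).hasDerivAt

theorem hasDerivAt_dd {F f : ℝ → ℝ} (hF : ∀ x, HasDerivAt F (f x) x) (e u : ℝ) :
    HasDerivAt (fun u => (F u - 2 * F (u - e) + F (u - 2 * e)) / e ^ 2)
      ((f u - 2 * f (u - e) + f (u - 2 * e)) / e ^ 2) u := by
  have h1 := (hF (u - e)).comp_sub_const u e
  have h2 := (hF (u - 2 * e)).comp_sub_const u (2 * e)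
  exact (((hF u).sub (h1.const_mul 2)).add h2).div_const _

theorem Ge_mem (hc : Continuous Γ) (hmono : Monotone Γ) {e : ℝ} (he : 0 < e) (u : ℝ) :
    Γ (u - 2 * e) ≤ Ge Γ e u ∧ Ge Γ e u ≤ Γ u := by
  obtain ⟨c, hc1, h1⟩ := diff_step (hasDerivAt_G1 hc) he u
  obtain ⟨c', hc2, h2⟩ := mvt (hasDerivAt_G0 hc) (show c - e < c by linarith)
  have h3 : Ge Γ e u = Γ c' := by
    unfold Ge
    rw [h1, h2]
    field_simp
    ring
  rw [h3]
  exact ⟨hmono (by linarith [hc1.1, hc2.1]), hmono (by linarith [hc1.2, hc2.2])⟩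

theorem Ge1_mem (hc : Continuous Γ) (hmono : Monotone Γ)
    (hlip : ∀ a b, a ≤ b → Γ b - Γ a ≤ b - a) {e : ℝ} (he : 0 < e) (u : ℝ) :
    0 ≤ Ge1 Γ e u ∧ Ge1 Γ e u ≤ 1 := by
  obtain ⟨c, hc1, h1⟩ := diff_step (hasDerivAt_G0 hc) he u
  unfold Ge1
  rw [h1]
  have h2 : 0 ≤ Γ c - Γ (c - e) := sub_nonneg.2 (hmono (by linarith))
  have h3 := hlip (c - e) c (by linarith)
  constructor
  · positivity
  · rw [div_le_one (by positivity)]
    nlinarith

theorem Ge2_mem (hconv : ConvexOn ℝ univ Γ) (hmono : Monotone Γ)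
    (hlip : ∀ a b, a ≤ b → Γ b - Γ a ≤ b - a) {e : ℝ} (he : 0 < e) (u : ℝ) :
    0 ≤ Ge2 Γ e u ∧ Ge2 Γ e u ≤ 1 / e := by
  have h1 := hconv.2 (mem_univ u) (mem_univ (u - 2 * e)) (show (0 : ℝ) ≤ 1 / 2 by norm_num)
    (show (0 : ℝ) ≤ 1 / 2 by norm_num) (by norm_num)
  simp only [smul_eq_mul] at h1
  have e1 : 1 / 2 * u + 1 / 2 * (u - 2 * e) = u - e := by ring
  rw [e1] at h1
  have h2 := hlip (u - e) u (by linarith)
  have h3 : Γ (u - 2 * e) ≤ Γ (u - e) := hmono (by linarith)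
  unfold Ge2
  constructor
  · apply div_nonneg _ (by positivity)
    linarith
  · rw [div_le_div_iff₀ (by positivity) he]
    have : Γ u - 2 * Γ (u - e) + Γ (u - 2 * e) ≤ e := by linarith
    nlinarith

theorem G0_zero {μ : ℝ} (hμ : 0 < μ) (h0 : ∀ u ≤ μ, Γ u = 0) {u : ℝ} (hu : u ≤ μ) :
    G0 Γ u = 0 := by
  unfold G0
  rw [intervalIntegral.integral_congr (g := fun _ => (0 : ℝ))]
  · simp
  · intro s hs
    apply h0
    rcases le_total 0 u with h | h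
    · rw [uIcc_of_le h] at hs; exact hs.2.trans hu
    · rw [uIcc_of_ge h] at hs; exact hs.2.trans hμ.le

theorem G1_zero {μ : ℝ} (hμ : 0 < μ) (h0 : ∀ u ≤ μ, Γ u = 0) {u : ℝ} (hu : u ≤ μ) :
    G1 Γ u = 0 := by
  have : ∀ u ≤ μ, G0 Γ u = 0 := fun u hu => G0_zero hμ h0 hu
  exact G0_zero (Γ := G0 Γ) hμ this hu

theorem GC2_Ge {μ : ℝ} (hμ : 0 < μ) (hc : Continuous Γ) (hconv : ConvexOn ℝ univ Γ)
    (hmono : Monotone Γ) (hlip : ∀ a b, a ≤ b → Γ b - Γ a ≤ b - a) (h0 : ∀ u ≤ μ, Γ u = 0)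
    {e : ℝ} (he : 0 < e) : GC2 (Ge Γ e) (Ge1 Γ e) (Ge2 Γ e) μ where
  d1 u := hasDerivAt_dd (hasDerivAt_G1 hc) e u
  d2 u := hasDerivAt_dd (hasDerivAt_G0 hc) e u
  c2 := by
    unfold Ge2
    fun_prop
  n1 u := (Ge1_mem hc hmono hlip he u).1
  l1 u := (Ge1_mem hc hmono hlip he u).2
  n2 u := (Ge2_mem hconv hmono hlip he u).1
  b2 := ⟨1 / e, fun u => (Ge2_mem hconv hmono hlip he u).2⟩
  z0 u hu := by
    unfold Ge
    rw [G1_zero hμ h0 hu, G1_zero hμ h0 (by linarith : u - e ≤ μ),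
      G1_zero hμ h0 (by linarith : u - 2 * e ≤ μ)]
    simp

theorem nonlin_of_GC2 {Γ Γ1 Γ2 : ℝ → ℝ} {μ : ℝ} (hμ : 0 < μ) (h : GC2 Γ Γ1 Γ2 μ) :
    Pool.Agent.H82.TF.Nonlin Γ where
  mono := monotone_of_hasDerivAt_nonneg (fun x => h.d1 x) (fun x => h.n1 x)
  lip := by
    intro a b hab
    rcases hab.eq_or_lt with rfl | hlt
    · simp
    · obtain ⟨c, _, hc⟩ := mvt h.d1 hlt
      rw [hc]
      have := h.l1 c
      nlinarith [sub_pos.2 hlt]
  zero := h.z0 0 hμ.le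

end Moll

open Moll Pool.Agent.H82.TF

/-- comparison of the iterates for two nonlinearities -/
theorem uIt_compare {h : ℝ} (hh : 0 < h) {z : Fin k → ℝ} (hz : ∀ i, 0 < z i) (Q : Fin k → E3)
    {Γ Γ' : ℝ → ℝ} (hΓ : Nonlin Γ) (hΓ' : Nonlin Γ') {d : ℝ}
    (hle : ∀ u, Γ' u ≤ Γ u) (hd : ∀ u, 0 ≤ u → Γ u - Γ' u ≤ d * u) (n : ℕ) :
    (∀ x, uIt Γ h z Q n x ≤ uIt Γ' h z Q n x) ∧
    ∫ x, uIt Γ' h z Q n x ≤ (∫ x, uIt Γ h z Q n x) +
      d * ∑ m ∈ Finset.range n, ∫ x, uIt Γ h z Q m x := by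
  induction n with
  | zero =>
    refine ⟨fun x => le_rfl, ?_⟩
    have e1 : uIt Γ h z Q 0 = fun _ => 0 := rfl
    have e2 : uIt Γ' h z Q 0 = fun _ => 0 := rfl
    simp [e1, e2]
  | succ n ih =>
    obtain ⟨ih1, ih2⟩ := ih
    have p := uIt_props hh hz Q hΓ n
    have p' := uIt_props hh hz Q hΓ' n
    have i1 := (integrable_sub_Γ hh hz Q hΓ n)
    have i1' := (integrable_sub_Γ hh hz Q hΓ' n)
    constructor
    · intro x
      rw [uIt_succ, uIt_succ]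
      have : P h (fun y => uIt Γ h z Q n y - Γ (uIt Γ h z Q n y)) x ≤
          P h (fun y => uIt Γ' h z Q n y - Γ' (uIt Γ' h z Q n y)) x := by
        refine P_mono hh x (integrable_hk_mul' hh i1.1 x) (integrable_hk_mul' hh i1'.1 x)
          fun y => ?_
        have h1 := hΓ'.sub_mono (ih1 y)
        have h2 := hle (uIt Γ h z Q n y)
        linarith
      linarith
    · rw [integral_uIt_succ hh hz Q hΓ n, integral_uIt_succ hh hz Q hΓ' n,
        Finset.sum_range_succ, mul_add]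
      have key : (∫ x, Γ (uIt Γ h z Q n x)) - (∫ x, Γ' (uIt Γ' h z Q n x)) ≤
          d * ∫ x, uIt Γ h z Q n x := by
        rw [← integral_const_mul, ← integral_sub i1.2 i1'.2]
        apply integral_mono (i1.2.sub i1'.2) (p.2.2.const_mul d)
        intro x
        show Γ (uIt Γ h z Q n x) - Γ' (uIt Γ' h z Q n x) ≤ d * uIt Γ h z Q n x
        have h1 := hΓ'.mono (ih1 x)
        have h2 := hd _ (p.2.1 x).1
        linarith
      linarith

/-- PART I.3: the general case. -/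
theorem U_mono_of_C2 (h : ℝ) (hh : 0 < h) (z : Fin k → ℝ) (hz : ∀ i, 0 < z i) (R : Fin k → E3)
    (l l' : ℝ) (_hl : 0 < l) (_hll : l ≤ l') (n : ℕ) (μ : ℝ) (hμ : 0 < μ)
    (hC2 : ∀ Γ Γ1 Γ2 : ℝ → ℝ, GC2 Γ Γ1 Γ2 μ →
      ∫ x, uIt Γ h z (fun i => l • R i) n x ≤ ∫ x, uIt Γ h z (fun i => l' • R i) n x)
    (Γ : ℝ → ℝ) (hconv : ConvexOn ℝ univ Γ) (hmono : Monotone Γ)
    (hlip : ∀ a b, a ≤ b → Γ b - Γ a ≤ b - a) (h0 : ∀ u ≤ μ, Γ u = 0) :
    ∫ x, uIt Γ h z (fun i => l • R i) n x ≤ ∫ x, uIt Γ h z (fun i => l' • R i) n x := by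
  have hΓ : Nonlin Γ := ⟨hmono, hlip, h0 0 hμ.le⟩
  have hc := hΓ.continuous
  set S := ∑ m ∈ Finset.range n, ∫ x, uIt Γ h z (fun i => l' • R i) m x with hS
  have hS0 : 0 ≤ S := Finset.sum_nonneg fun m _ => integral_uIt_nonneg hh hz _ hΓ m
  -- for every `e > 0`
  have main : ∀ e : ℝ, 0 < e → ∫ x, uIt Γ h z (fun i => l • R i) n x ≤
      (∫ x, uIt Γ h z (fun i => l' • R i) n x) + (2 * e / μ) * S := by
    intro e he
    have hG := GC2_Ge hμ hc hconv hmono hlip h0 he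
    have hN := nonlin_of_GC2 hμ hG
    have hle : ∀ u, Ge Γ e u ≤ Γ u := fun u => (Ge_mem hc hmono he u).2
    have hd : ∀ u, 0 ≤ u → Γ u - Ge Γ e u ≤ (2 * e / μ) * u := by
      intro u hu
      rcases le_or_gt u μ with h1 | h1
      · rw [h0 u h1, hG.z0 u h1]
        simp only [sub_zero]
        positivity
      · have h2 := (Ge_mem hc hmono he u).1
        have h3 := hlip (u - 2 * e) u (by linarith)
        have h4 : 2 * e ≤ (2 * e / μ) * u := by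
          rw [div_mul_eq_mul_div, le_div_iff₀ hμ]
          nlinarith
        linarith
    have c1 := uIt_compare hh hz (fun i => l • R i) hΓ hN hle hd n
    have c2 := uIt_compare hh hz (fun i => l' • R i) hΓ hN hle hd n
    have c3 : ∫ x, uIt Γ h z (fun i => l • R i) n x ≤
        ∫ x, uIt (Ge Γ e) h z (fun i => l • R i) n x :=
      integral_mono (uIt_props hh hz _ hΓ n).2.2 (uIt_props hh hz _ hN n).2.2 c1.1
    exact (c3.trans (hC2 _ _ _ hG)).trans c2.2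
  -- let `e → 0`
  apply le_of_forall_pos_le_add
  intro d hd
  have h1 := main (d * μ / (2 * (S + 1))) (by positivity)
  refine h1.trans ?_
  have h2 : 2 * (d * μ / (2 * (S + 1))) / μ * S = d * (S / (S + 1)) := by
    field_simp
  rw [h2]
  have h3 : S / (S + 1) ≤ 1 := by rw [div_le_one (by positivity)]; linarith
  nlinarith

end Pool.Agent.H29.TF
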