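import Pool.Agent.H99.TF.Pot

/-! # PART IVa of the Thomas–Fermi pressure project: the TF functional -/

open MeasureTheory Real Set
open scoped ENNReal

namespace Pool.Agent.H29.TF
variable {k : ℕ}

/-- kinetic term -/
noncomputable def Kin (ρ : E3 → ℝ) : ℝ := (3 / 5 : ℝ) * ∫ x, ρ x ^ ((5 : ℝ) / 3)

/-- attraction term -/
noncomputable def Att (z : Fin k → ℝ) (R : Fin k → E3) (l : ℝ) (ρ : E3 → ℝ) : ℝ :=
  ∫ x, (∑ i, z i / ‖x - l • R i‖) * ρ x

/-- Coulomb form -/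
noncomputable def Coul (a b : E3 → ℝ) : ℝ := ∫ x, ∫ y, a x * b y / ‖x - y‖

theorem F_eq (z : Fin k → ℝ) (R : Fin k → E3) (μ l : ℝ) (ρ : E3 → ℝ) :
    F z R μ l ρ = Kin ρ - Att z R l ρ + (1 / 2 : ℝ) * Coul ρ ρ + μ * ∫ x, ρ x := rfl

/-! ### (a) admissible densities and integrability -/

theorem Adm.zero : Adm (fun _ => 0) := by
  refine ⟨fun _ => le_rfl, integrable_zero _ _ _, ?_⟩
  have : (fun _ : E3 => (0 : ℝ) ^ ((5 : ℝ) / 3)) = fun _ => 0 := by
    ext; rw [Real.zero_rpow (by norm_num)]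
  rw [this]
  exact integrable_zero _ _ _

theorem Adm.const_mul {ρ : E3 → ℝ} (h : Adm ρ) {c : ℝ} (hc : 0 ≤ c) : Adm (fun x => c * ρ x) := by
  refine ⟨fun x => mul_nonneg hc (h.1 x), h.2.1.const_mul c, ?_⟩
  have : (fun x => (c * ρ x) ^ ((5 : ℝ) / 3)) = fun x => c ^ ((5 : ℝ) / 3) * ρ x ^ ((5 : ℝ) / 3) := by
    ext x; rw [Real.mul_rpow hc (h.1 x)]
  rw [this]
  exact h.2.2.const_mul _

theorem conv53 {a b : ℝ} (ha : 0 ≤ a) (hb : 0 ≤ b) {t : ℝ} (h0 : 0 ≤ t) (h1 : t ≤ 1) :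
    (t * a + (1 - t) * b) ^ ((5 : ℝ) / 3) ≤
      t * a ^ ((5 : ℝ) / 3) + (1 - t) * b ^ ((5 : ℝ) / 3) := by
  have h := (convexOn_rpow (p := (5 : ℝ) / 3) (by norm_num)).2 (mem_Ici.2 ha) (mem_Ici.2 hb) h0
    (by linarith : 0 ≤ 1 - t) (by ring)
  simpa [smul_eq_mul] using h

theorem Adm.add {a b : E3 → ℝ} (ha : Adm a) (hb : Adm b) : Adm (fun x => a x + b x) := by
  refine ⟨fun x => add_nonneg (ha.1 x) (hb.1 x), ha.2.1.add hb.2.1, ?_⟩
  have hm : AEStronglyMeasurable (fun x => (a x + b x) ^ ((5 : ℝ) / 3)) volume :=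
    ((ha.2.1.add hb.2.1).aestronglyMeasurable.aemeasurable.pow_const _).aestronglyMeasurable
  refine Integrable.mono' ((((ha.const_mul (c := 2) (by norm_num)).2.2.const_mul (1 / 2)).add
    ((hb.const_mul (c := 2) (by norm_num)).2.2.const_mul (1 / 2)))) hm
    (Filter.Eventually.of_forall fun x => ?_)
  rw [Real.norm_of_nonneg (Real.rpow_nonneg (add_nonneg (ha.1 x) (hb.1 x)) _)]
  have h := conv53 (a := 2 * a x) (b := 2 * b x) (mul_nonneg (by norm_num) (ha.1 x))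
    (mul_nonneg (by norm_num) (hb.1 x)) (t := 1 / 2) (by norm_num) (by norm_num)
  have e : (1 / 2 : ℝ) * (2 * a x) + (1 - 1 / 2) * (2 * b x) = a x + b x := by ring
  rw [e] at h
  have e2 : (1 - 1 / 2 : ℝ) = 1 / 2 := by norm_num
  rw [e2] at h
  exact h

theorem Kin_nonneg {ρ : E3 → ℝ} (h : Adm ρ) : 0 ≤ Kin ρ :=
  mul_nonneg (by norm_num) (integral_nonneg fun x => Real.rpow_nonneg (h.1 x) _)

theorem Att_nonneg {z : Fin k → ℝ} (hz : ∀ i, 0 ≤ z i) (R : Fin k → E3) (l : ℝ) {ρ : E3 → ℝ}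
    (h : Adm ρ) : 0 ≤ Att z R l ρ :=
  integral_nonneg fun x => mul_nonneg
    (Finset.sum_nonneg fun i _ => div_nonneg (hz i) (norm_nonneg _)) (h.1 x)

theorem Coul_nonneg {a b : E3 → ℝ} (ha : Adm a) (hb : Adm b) : 0 ≤ Coul a b :=
  integral_nonneg fun x => integral_nonneg fun y =>
    div_nonneg (mul_nonneg (ha.1 x) (hb.1 y)) (norm_nonneg _)

theorem integrable_att (z : Fin k → ℝ) (R : Fin k → E3) (l : ℝ) {ρ : E3 → ℝ} (h : Adm ρ) :
    Integrable (fun x => (∑ i, z i / ‖x - l • R i‖) * ρ x) := by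
  have e : (fun x => (∑ i, z i / ‖x - l • R i‖) * ρ x) =
      fun x => ∑ i, z i * (ρ x / ‖x - l • R i‖) := by
    ext x; rw [Finset.sum_mul]; exact Finset.sum_congr rfl fun i _ => by ring
  rw [e]
  exact integrable_finsetSum _ fun i _ => (integrable_newton h _).const_mul _

theorem Att_eq_sum (z : Fin k → ℝ) (R : Fin k → E3) (l : ℝ) {ρ : E3 → ℝ} (h : Adm ρ) :
    Att z R l ρ = ∑ i, z i * ∫ x, ρ x / ‖x - l • R i‖ := by
  unfold Att
  have e : (fun x => (∑ i, z i / ‖x - l • R i‖) * ρ x) =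
      fun x => ∑ i, z i * (ρ x / ‖x - l • R i‖) := by
    ext x; rw [Finset.sum_mul]; exact Finset.sum_congr rfl fun i _ => by ring
  rw [e, integral_finsetSum _ fun i _ => (integrable_newton h _).const_mul _]
  exact Finset.sum_congr rfl fun i _ => integral_const_mul _ _

/-- the constant bounding the Newton potential of `s` uniformly -/
theorem exists_newton_bound {b : E3 → ℝ} (hb : Adm b) : ∃ M : ℝ, 0 ≤ M ∧
    ∀ q : E3, ∫ x, b x / ‖x - q‖ ≤ M := by
  refine ⟨_, ?_, fun q => newton_le_aux one_pos one_pos q hb⟩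
  have h1 : 0 ≤ ∫ x, b x ^ ((5 : ℝ) / 3) := integral_nonneg fun x => Real.rpow_nonneg (hb.1 x) _
  have h2 : 0 ≤ ∫ x, b x := integral_nonneg fun x => hb.1 x
  have h3 := c3_pos
  positivity

theorem aesm_coul {a b : E3 → ℝ} (ha : AEStronglyMeasurable a volume)
    (hb : AEStronglyMeasurable b volume) :
    AEStronglyMeasurable (fun p : E3 × E3 => a p.1 * b p.2 / ‖p.1 - p.2‖)
      (volume.prod volume) := by
  have : Measurable (fun p : E3 × E3 => ‖p.1 - p.2‖⁻¹) := by fun_prop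
  simp_rw [div_eq_mul_inv]
  exact (ha.comp_fst.mul hb.comp_snd).mul this.aestronglyMeasurable

theorem inner_coul (a b : E3 → ℝ) (x : E3) :
    ∫ y, a x * b y / ‖x - y‖ = a x * ∫ y, b y / ‖y - x‖ := by
  rw [← integral_const_mul]
  congr 1; ext y; rw [norm_sub_rev x y]; ring

theorem integrable_coul {a b : E3 → ℝ} (ha : Adm a) (hb : Adm b) :
    Integrable (fun p : E3 × E3 => a p.1 * b p.2 / ‖p.1 - p.2‖) (volume.prod volume) := by
  have hm := aesm_coul ha.2.1.aestronglyMeasurable hb.2.1.aestronglyMeasurable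
  obtain ⟨M, hM0, hM⟩ := exists_newton_bound hb
  rw [integrable_prod_iff hm]
  constructor
  · refine Filter.Eventually.of_forall fun x => ?_
    have := (integrable_newton hb x).const_mul (a x)
    refine this.congr (Filter.Eventually.of_forall fun y => ?_)
    show a x * (b y / ‖y - x‖) = a x * b y / ‖x - y‖
    rw [norm_sub_rev x y]; ring
  · refine Integrable.mono' (ha.2.1.mul_const M) hm.norm.integral_prod_right'
      (Filter.Eventually.of_forall fun x => ?_)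
    rw [Real.norm_of_nonneg (integral_nonneg fun y => norm_nonneg _)]
    have e : (fun y => ‖a x * b y / ‖x - y‖‖) = fun y => a x * b y / ‖x - y‖ := by
      ext y
      exact Real.norm_of_nonneg (div_nonneg (mul_nonneg (ha.1 x) (hb.1 y)) (norm_nonneg _))
    simp only [e]
    rw [inner_coul]
    exact mul_le_mul_of_nonneg_left (hM x) (ha.1 x)

theorem Att_le (z : Fin k → ℝ) (hz : ∀ i, 0 ≤ z i) :
    ∃ C : ℝ, 0 < C ∧ ∀ c r : ℝ, 0 < c → 0 < r → ∀ (R : Fin k → E3) (l : ℝ) (s : E3 → ℝ), Adm s →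
    Att z R l s ≤ c * Kin s + C * c ^ (-(3 / 2) : ℝ) * √r + ((∑ i, z i) / r) * ∫ x, s x := by
  set Z := ∑ i, z i with hZ
  have hZ0 : 0 ≤ Z := Finset.sum_nonneg fun i _ => hz i
  -- use `newton_le` with `c' = (3/5) c / (Z + 1)`
  refine ⟨Z * c3 * ((3 / 5) / (Z + 1)) ^ (-(3 / 2) : ℝ) + 1, ?_, ?_⟩
  · have := c3_pos; positivity
  · intro c r hc hr R l s hs
    have hK : 0 ≤ ∫ x, s x ^ ((5 : ℝ) / 3) := integral_nonneg fun x => Real.rpow_nonneg (hs.1 x) _
    have hI : 0 ≤ ∫ x, s x := integral_nonneg fun x => hs.1 x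
    set c' := (3 / 5) / (Z + 1) * c with hc'
    have hc'0 : 0 < c' := by positivity
    rw [Att_eq_sum z R l hs]
    calc ∑ i, z i * ∫ x, s x / ‖x - l • R i‖
        ≤ ∑ i, z i * (c' * (∫ x, s x ^ ((5 : ℝ) / 3)) + c3 * c' ^ (-(3 / 2) : ℝ) * √r
            + (1 / r) * ∫ x, s x) :=
          Finset.sum_le_sum fun i _ => mul_le_mul_of_nonneg_left
            (newton_le_aux hc'0 hr _ hs) (hz i)
      _ = Z * (c' * (∫ x, s x ^ ((5 : ℝ) / 3)) + c3 * c' ^ (-(3 / 2) : ℝ) * √r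
            + (1 / r) * ∫ x, s x) := by rw [hZ, Finset.sum_mul]
      _ ≤ _ := by
          have e1 : c' ^ (-(3 / 2) : ℝ) =
              ((3 / 5) / (Z + 1)) ^ (-(3 / 2) : ℝ) * c ^ (-(3 / 2) : ℝ) := by
            rw [hc', Real.mul_rpow (by positivity) hc.le]
          have e2 : Z * (c' * ∫ x, s x ^ ((5 : ℝ) / 3)) ≤ c * Kin s := by
            rw [hc', Kin]
            have : Z * ((3 / 5) / (Z + 1) * c * ∫ x, s x ^ ((5 : ℝ) / 3)) =
              (Z / (Z + 1)) * (c * (3 / 5 * ∫ x, s x ^ ((5 : ℝ) / 3))) := by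
                field_simp
            rw [this]
            have h1 : Z / (Z + 1) ≤ 1 := by rw [div_le_one (by positivity)]; linarith
            have h2 : 0 ≤ c * (3 / 5 * ∫ x, s x ^ ((5 : ℝ) / 3)) := by positivity
            nlinarith
          have e3 : 0 ≤ c ^ (-(3 / 2) : ℝ) * √r := by positivity
          rw [e1]
          have : Z * (c' * (∫ x, s x ^ ((5 : ℝ) / 3)) +
              c3 * (((3 / 5) / (Z + 1)) ^ (-(3 / 2) : ℝ) * c ^ (-(3 / 2) : ℝ)) * √r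
              + (1 / r) * ∫ x, s x) = Z * (c' * ∫ x, s x ^ ((5 : ℝ) / 3)) +
              Z * c3 * ((3 / 5) / (Z + 1)) ^ (-(3 / 2) : ℝ) * (c ^ (-(3 / 2) : ℝ) * √r) +
              (Z / r) * ∫ x, s x := by ring
          rw [this]
          nlinarith

theorem Coul_eq (a b : E3 → ℝ) : Coul a b = ∫ x, a x * ∫ y, b y / ‖y - x‖ := by
  unfold Coul
  congr 1; ext x; exact inner_coul a b x

theorem Coul_le_mul : ∃ C : ℝ, 0 < C ∧ ∀ c r : ℝ, 0 < c → 0 < r → ∀ (a b : E3 → ℝ),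
    Adm a → Adm b → Coul a b ≤ (∫ x, a x) *
      (c * (∫ x, b x ^ ((5 : ℝ) / 3)) + C * c ^ (-(3 / 2) : ℝ) * √r + (1 / r) * ∫ x, b x) := by
  refine ⟨c3, c3_pos, fun c r hc hr a b ha hb => ?_⟩
  rw [Coul_eq, ← integral_mul_const]
  apply integral_mono_of_nonneg
  · exact Filter.Eventually.of_forall fun x => mul_nonneg (ha.1 x)
      (integral_nonneg fun y => div_nonneg (hb.1 y) (norm_nonneg _))
  · exact ha.2.1.mul_const _
  · exact Filter.Eventually.of_forall fun x =>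
      mul_le_mul_of_nonneg_left (newton_le_aux hc hr x hb) (ha.1 x)

/-! ### (b) linearity, Coulomb form, convexity -/

theorem Att_lin (z : Fin k → ℝ) (R : Fin k → E3) (l : ℝ) {a b : E3 → ℝ} (ha : Adm a) (hb : Adm b)
    (s t : ℝ) : Att z R l (fun x => s * a x + t * b x) = s * Att z R l a + t * Att z R l b := by
  unfold Att
  have ia := (integrable_att z R l ha).const_mul s
  have ib := (integrable_att z R l hb).const_mul t
  rw [← integral_const_mul, ← integral_const_mul, ← integral_add ia ib]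
  congr 1; ext x; ring

theorem Coul_eq_prod {a b : E3 → ℝ} (ha : Adm a) (hb : Adm b) :
    Coul a b = ∫ p : E3 × E3, a p.1 * b p.2 / ‖p.1 - p.2‖ ∂(volume.prod volume) :=
  (integral_prod _ (integrable_coul ha hb)).symm

theorem Coul_symm {a b : E3 → ℝ} (ha : Adm a) (hb : Adm b) : Coul a b = Coul b a := by
  unfold Coul
  rw [integral_integral_swap (integrable_coul ha hb)]
  congr 1; ext y; congr 1; ext x; rw [norm_sub_rev]; ring

theorem Coul_lin {a b : E3 → ℝ} (ha : Adm a) (hb : Adm b) (s t : ℝ) :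
    Coul (fun x => s * a x + t * b x) (fun x => s * a x + t * b x) =
      s ^ 2 * Coul a a + 2 * (s * t) * Coul a b + t ^ 2 * Coul b b := by
  have iaa := (integrable_coul ha ha).const_mul (s ^ 2)
  have iab := (integrable_coul ha hb).const_mul (s * t)
  have iba := (integrable_coul hb ha).const_mul (s * t)
  have ibb := (integrable_coul hb hb).const_mul (t ^ 2)
  have e : Integrable (fun p : E3 × E3 => (s * a p.1 + t * b p.1) * (s * a p.2 + t * b p.2)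
      / ‖p.1 - p.2‖) (volume.prod volume) := by
    refine (((iaa.add iab).add iba).add ibb).congr (Filter.Eventually.of_forall fun p => ?_)
    simp only [Pi.add_apply]
    ring
  have h0 : Coul (fun x => s * a x + t * b x) (fun x => s * a x + t * b x) =
      ∫ p : E3 × E3, (s * a p.1 + t * b p.1) * (s * a p.2 + t * b p.2)
      / ‖p.1 - p.2‖ ∂(volume.prod volume) := (integral_prod _ e).symm
  have h1 : (fun p : E3 × E3 => (s * a p.1 + t * b p.1) * (s * a p.2 + t * b p.2)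
      / ‖p.1 - p.2‖) = fun p => (s ^ 2 * (a p.1 * a p.2 / ‖p.1 - p.2‖) +
        s * t * (a p.1 * b p.2 / ‖p.1 - p.2‖)) + s * t * (b p.1 * a p.2 / ‖p.1 - p.2‖) +
        t ^ 2 * (b p.1 * b p.2 / ‖p.1 - p.2‖) := by
    ext p; ring
  have i12 : Integrable (fun p : E3 × E3 => s ^ 2 * (a p.1 * a p.2 / ‖p.1 - p.2‖) +
        s * t * (a p.1 * b p.2 / ‖p.1 - p.2‖)) (volume.prod volume) := iaa.add iab
  have i123 : Integrable (fun p : E3 × E3 => (s ^ 2 * (a p.1 * a p.2 / ‖p.1 - p.2‖) +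
        s * t * (a p.1 * b p.2 / ‖p.1 - p.2‖)) + s * t * (b p.1 * a p.2 / ‖p.1 - p.2‖))
        (volume.prod volume) := i12.add iba
  rw [h0, h1, integral_add i123 ibb, integral_add i12 iba, integral_add iaa iab,
    integral_const_mul, integral_const_mul, integral_const_mul, integral_const_mul,
    ← Coul_eq_prod ha ha, ← Coul_eq_prod ha hb, ← Coul_eq_prod hb ha, ← Coul_eq_prod hb hb,
    Coul_symm hb ha]
  ring

theorem LC_congr {f f' g g' : E3 → ℝ≥0∞} (hf : f =ᵐ[volume] f') (hg : g =ᵐ[volume] g') :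
    LC f g = LC f' g' := by
  unfold LC
  refine lintegral_congr_ae (hf.mono fun x hx => ?_)
  refine lintegral_congr_ae (hg.mono fun y hy => ?_)
  show f x * g y * _ = f' x * g' y * _
  rw [hx, hy]

theorem ofReal_Coul {a b : E3 → ℝ} (ha : Adm a) (hb : Adm b) :
    ENNReal.ofReal (Coul a b) =
      LC (fun x => ENNReal.ofReal (a x)) (fun x => ENNReal.ofReal (b x)) := by
  unfold LC
  have hi := integrable_coul ha hb
  unfold Coul
  rw [ofReal_integral_eq_lintegral_ofReal hi.integral_prod_left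
    (Filter.Eventually.of_forall fun x => integral_nonneg fun y =>
      div_nonneg (mul_nonneg (ha.1 x) (hb.1 y)) (norm_nonneg _))]
  refine lintegral_congr fun x => ?_
  have hix : Integrable (fun y => a x * b y / ‖x - y‖) := by
    have := (integrable_newton hb x).const_mul (a x)
    refine this.congr (Filter.Eventually.of_forall fun y => ?_)
    show a x * (b y / ‖y - x‖) = a x * b y / ‖x - y‖
    rw [norm_sub_rev x y]; ring
  rw [ofReal_integral_eq_lintegral_ofReal hix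
    (Filter.Eventually.of_forall fun y => div_nonneg (mul_nonneg (ha.1 x) (hb.1 y)) (norm_nonneg _))]
  refine lintegral_congr fun y => ?_
  rw [← ENNReal.ofReal_mul (ha.1 x), ← ENNReal.ofReal_mul (mul_nonneg (ha.1 x) (hb.1 y))]
  congr 1; ring

/-- positive definiteness of the Coulomb kernel -/
theorem two_Coul_le {a b : E3 → ℝ} (ha : Adm a) (hb : Adm b) :
    2 * Coul a b ≤ Coul a a + Coul b b := by
  have haa := Coul_nonneg ha ha
  have hab := Coul_nonneg ha hb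
  have hbb := Coul_nonneg hb hb
  obtain ⟨a', ha'm, ha'e⟩ := ha.2.1.aestronglyMeasurable
  obtain ⟨b', hb'm, hb'e⟩ := hb.2.1.aestronglyMeasurable
  have fa : (fun x => ENNReal.ofReal (a x)) =ᵐ[volume] fun x => ENNReal.ofReal (a' x) :=
    ha'e.mono fun x hx => by show ENNReal.ofReal (a x) = _; rw [hx]
  have fb : (fun x => ENNReal.ofReal (b x)) =ᵐ[volume] fun x => ENNReal.ofReal (b' x) :=
    hb'e.mono fun x hx => by show ENNReal.ofReal (b x) = _; rw [hx]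
  have h := two_LC_le (f := fun x => ENNReal.ofReal (a' x)) (g := fun x => ENNReal.ofReal (b' x))
    ha'm.measurable.ennreal_ofReal hb'm.measurable.ennreal_ofReal
  rw [← LC_congr fa fb, ← LC_congr fa fa, ← LC_congr fb fb, ← ofReal_Coul ha hb,
    ← ofReal_Coul ha ha, ← ofReal_Coul hb hb, ← ENNReal.ofReal_add haa hbb] at h
  have e2 : (2 : ℝ≥0∞) = ENNReal.ofReal 2 := by simp
  rw [e2, ← ENNReal.ofReal_mul (by norm_num)] at h
  exact (ENNReal.ofReal_le_ofReal_iff (add_nonneg haa hbb)).1 h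

theorem Kin_convex {a b : E3 → ℝ} (ha : Adm a) (hb : Adm b) {t : ℝ} (h0 : 0 ≤ t) (h1 : t ≤ 1) :
    Kin (fun x => t * a x + (1 - t) * b x) ≤ t * Kin a + (1 - t) * Kin b := by
  unfold Kin
  have hc : Adm (fun x => t * a x + (1 - t) * b x) :=
    (ha.const_mul h0).add (hb.const_mul (by linarith))
  have ia := ha.2.2.const_mul t
  have ib := hb.2.2.const_mul (1 - t)
  have : ∫ x, (t * a x + (1 - t) * b x) ^ ((5 : ℝ) / 3) ≤
      t * (∫ x, a x ^ ((5 : ℝ) / 3)) + (1 - t) * ∫ x, b x ^ ((5 : ℝ) / 3) := by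
    rw [← integral_const_mul, ← integral_const_mul, ← integral_add ia ib]
    exact integral_mono hc.2.2 (ia.add ib) fun x => conv53 (ha.1 x) (hb.1 x) h0 h1
  linarith

theorem Coul_convex {a b : E3 → ℝ} (ha : Adm a) (hb : Adm b) {t : ℝ} (h0 : 0 ≤ t) (h1 : t ≤ 1) :
    Coul (fun x => t * a x + (1 - t) * b x) (fun x => t * a x + (1 - t) * b x) ≤
      t * Coul a a + (1 - t) * Coul b b := by
  rw [Coul_lin ha hb]
  have h := two_Coul_le ha hb
  have h2 : 0 ≤ t * (1 - t) := mul_nonneg h0 (by linarith)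
  nlinarith

theorem integral_lin {a b : E3 → ℝ} (ha : Adm a) (hb : Adm b) (s t : ℝ) :
    ∫ x, (s * a x + t * b x) = s * (∫ x, a x) + t * ∫ x, b x := by
  rw [integral_add (ha.2.1.const_mul s) (hb.2.1.const_mul t), integral_const_mul,
    integral_const_mul]

theorem F_convex (z : Fin k → ℝ) (R : Fin k → E3) (μ l : ℝ) {a b : E3 → ℝ} (ha : Adm a)
    (hb : Adm b) {t : ℝ} (h0 : 0 ≤ t) (h1 : t ≤ 1) :
    F z R μ l (fun x => t * a x + (1 - t) * b x) ≤ t * F z R μ l a + (1 - t) * F z R μ l b := by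
  rw [F_eq, F_eq, F_eq, Att_lin z R l ha hb, integral_lin ha hb]
  have e1 := Kin_convex ha hb h0 h1
  have e2 := Coul_convex ha hb h0 h1
  linarith

/-- pointwise midpoint gain -/
theorem gain_pointwise {a b : ℝ} (ha : 0 ≤ a) (hb : 0 ≤ b) :
    ((1 / 2) * a + (1 / 2) * b) ^ ((5 : ℝ) / 3) ≤
      (a ^ ((5 : ℝ) / 3) + b ^ ((5 : ℝ) / 3)) / 2
        - (1 / 6) * (a ^ ((5 : ℝ) / 6) - b ^ ((5 : ℝ) / 6)) ^ 2 := by
  set u := a ^ ((5 : ℝ) / 6) with hu
  set v := b ^ ((5 : ℝ) / 6) with hv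
  have hu0 : 0 ≤ u := by positivity
  have hv0 : 0 ≤ v := by positivity
  have eu : a ^ ((5 : ℝ) / 3) = u ^ 2 := by
    rw [hu, ← Real.rpow_natCast, ← Real.rpow_mul ha]; norm_num
  have ev : b ^ ((5 : ℝ) / 3) = v ^ 2 := by
    rw [hv, ← Real.rpow_natCast, ← Real.rpow_mul hb]; norm_num
  have eu' : a = u ^ ((6 : ℝ) / 5) := by
    rw [hu, ← Real.rpow_mul ha]; norm_num
  have ev' : b = v ^ ((6 : ℝ) / 5) := by
    rw [hv, ← Real.rpow_mul hb]; norm_num
  rw [eu, ev]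
  by_cases hz : u + v = 0
  · have h1 : u = 0 := by linarith
    have h2 : v = 0 := by linarith
    rw [eu', ev', h1, h2, Real.zero_rpow (by norm_num)]
    norm_num
  have hs : 0 < u + v := lt_of_le_of_ne (by linarith) (Ne.symm hz)
  set A := (u + v) / 2 with hA
  set B := (u ^ 2 + v ^ 2) / 2 with hB
  have hA0 : 0 < A := by positivity
  have hB0 : 0 < B := by
    have : 0 < u ^ 2 + v ^ 2 := by nlinarith [sq_nonneg (u - v)]
    positivity
  -- termwise weighted AM-GM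
  have term : ∀ w : ℝ, 0 ≤ w → w ^ ((6 : ℝ) / 5) ≤
      A ^ ((4 : ℝ) / 5) * B ^ ((1 : ℝ) / 5) * ((4 / 5) * (w / A) + (1 / 5) * (w ^ 2 / B)) := by
    intro w hw
    have h := Real.geom_mean_le_arith_mean2_weighted (w₁ := 4 / 5) (w₂ := 1 / 5) (p₁ := w / A)
      (p₂ := w ^ 2 / B) (by norm_num) (by norm_num) (by positivity) (by positivity) (by norm_num)
    have e : (w / A) ^ ((4 : ℝ) / 5) * (w ^ 2 / B) ^ ((1 : ℝ) / 5) =
        w ^ ((6 : ℝ) / 5) / (A ^ ((4 : ℝ) / 5) * B ^ ((1 : ℝ) / 5)) := by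
      rw [Real.div_rpow hw hA0.le, Real.div_rpow (by positivity) hB0.le, ← Real.rpow_natCast w 2,
        ← Real.rpow_mul hw, div_mul_div_comm, ← Real.rpow_add_of_nonneg hw (by norm_num)
        (by norm_num)]
      norm_num
    rw [e, div_le_iff₀ (by positivity)] at h
    linarith
  have hX : (1 / 2) * a + (1 / 2) * b ≤ A ^ ((4 : ℝ) / 5) * B ^ ((1 : ℝ) / 5) := by
    have h1 := term u hu0
    have h2 := term v hv0
    rw [← eu'] at h1
    rw [← ev'] at h2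
    have e : A ^ ((4 : ℝ) / 5) * B ^ ((1 : ℝ) / 5) * ((4 / 5) * (u / A) + (1 / 5) * (u ^ 2 / B)) +
        A ^ ((4 : ℝ) / 5) * B ^ ((1 : ℝ) / 5) * ((4 / 5) * (v / A) + (1 / 5) * (v ^ 2 / B)) =
        2 * (A ^ ((4 : ℝ) / 5) * B ^ ((1 : ℝ) / 5)) := by
      have e1 : u / A + v / A = 2 := by rw [← add_div, hA]; field_simp
      have e2 : u ^ 2 / B + v ^ 2 / B = 2 := by
        rw [← add_div, div_eq_iff hB0.ne', hB]; ring
      have : A ^ ((4 : ℝ) / 5) * B ^ ((1 : ℝ) / 5) * ((4 / 5) * (u / A) + (1 / 5) * (u ^ 2 / B)) +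
        A ^ ((4 : ℝ) / 5) * B ^ ((1 : ℝ) / 5) * ((4 / 5) * (v / A) + (1 / 5) * (v ^ 2 / B)) =
        A ^ ((4 : ℝ) / 5) * B ^ ((1 : ℝ) / 5) * ((4 / 5) * (u / A + v / A) +
          (1 / 5) * (u ^ 2 / B + v ^ 2 / B)) := by ring
      rw [this, e1, e2]; ring
    linarith
  calc ((1 / 2) * a + (1 / 2) * b) ^ ((5 : ℝ) / 3)
      ≤ (A ^ ((4 : ℝ) / 5) * B ^ ((1 : ℝ) / 5)) ^ ((5 : ℝ) / 3) :=
        Real.rpow_le_rpow (by positivity) hX (by norm_num)
    _ = (A ^ 2) ^ ((2 : ℝ) / 3) * B ^ ((1 : ℝ) / 3) := by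
        rw [Real.mul_rpow (by positivity) (by positivity), ← Real.rpow_mul hA0.le,
          ← Real.rpow_mul hB0.le, ← Real.rpow_natCast A 2, ← Real.rpow_mul hA0.le]
        norm_num
    _ ≤ (2 / 3) * A ^ 2 + (1 / 3) * B :=
        Real.geom_mean_le_arith_mean2_weighted (by norm_num) (by norm_num) (by positivity)
          hB0.le (by norm_num)
    _ = _ := by rw [hA, hB]; ring

theorem integrable_gain {a b : E3 → ℝ} (ha : Adm a) (hb : Adm b) :
    Integrable (fun x => (a x ^ ((5 : ℝ) / 6) - b x ^ ((5 : ℝ) / 6)) ^ 2) := by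
  have hm : AEStronglyMeasurable (fun x => (a x ^ ((5 : ℝ) / 6) - b x ^ ((5 : ℝ) / 6)) ^ 2)
      volume :=
    (((ha.2.1.aestronglyMeasurable.aemeasurable.pow_const _).sub
      (hb.2.1.aestronglyMeasurable.aemeasurable.pow_const _)).pow_const 2).aestronglyMeasurable
  refine Integrable.mono' (ha.2.2.add hb.2.2) hm (Filter.Eventually.of_forall fun x => ?_)
  rw [Real.norm_of_nonneg (sq_nonneg _)]
  show _ ≤ a x ^ ((5 : ℝ) / 3) + b x ^ ((5 : ℝ) / 3)
  have ha0 := ha.1 x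
  have hb0 := hb.1 x
  have eu : a x ^ ((5 : ℝ) / 3) = (a x ^ ((5 : ℝ) / 6)) ^ 2 := by
    rw [← Real.rpow_natCast, ← Real.rpow_mul ha0]; norm_num
  have ev : b x ^ ((5 : ℝ) / 3) = (b x ^ ((5 : ℝ) / 6)) ^ 2 := by
    rw [← Real.rpow_natCast, ← Real.rpow_mul hb0]; norm_num
  rw [eu, ev]
  nlinarith [mul_nonneg (Real.rpow_nonneg ha0 ((5 : ℝ) / 6)) (Real.rpow_nonneg hb0 ((5 : ℝ) / 6))]

theorem Kin_mid {a b : E3 → ℝ} (ha : Adm a) (hb : Adm b) :
    Kin (fun x => (1 / 2) * a x + (1 / 2) * b x) ≤ (Kin a + Kin b) / 2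
      - (1 / 10) * ∫ x, (a x ^ ((5 : ℝ) / 6) - b x ^ ((5 : ℝ) / 6)) ^ 2 := by
  unfold Kin
  have hc : Adm (fun x => (1 / 2) * a x + (1 / 2) * b x) :=
    (ha.const_mul (by norm_num)).add (hb.const_mul (by norm_num))
  have ia := ha.2.2
  have ib := hb.2.2
  have ig := (integrable_gain ha hb).const_mul (1 / 6)
  have iab : Integrable (fun x => (a x ^ ((5 : ℝ) / 3) + b x ^ ((5 : ℝ) / 3)) / 2) :=
    (ia.add ib).div_const 2
  have : ∫ x, ((1 / 2) * a x + (1 / 2) * b x) ^ ((5 : ℝ) / 3) ≤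
      ((∫ x, a x ^ ((5 : ℝ) / 3)) + ∫ x, b x ^ ((5 : ℝ) / 3)) / 2 -
        (1 / 6) * ∫ x, (a x ^ ((5 : ℝ) / 6) - b x ^ ((5 : ℝ) / 6)) ^ 2 := by
    rw [← integral_add ia ib, ← integral_div, ← integral_const_mul, ← integral_sub iab ig]
    exact integral_mono hc.2.2 (iab.sub ig) fun x => gain_pointwise (ha.1 x) (hb.1 x)
  linarith

/-- midpoint gain (strict convexity, quantitative); `c₀` is an absolute constant -/
theorem F_mid : ∃ c₀ : ℝ, 0 < c₀ ∧ ∀ {k : ℕ} (z : Fin k → ℝ) (R : Fin k → E3) (μ l : ℝ)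
    (a b : E3 → ℝ), Adm a → Adm b →
    F z R μ l (fun x => (1 / 2) * a x + (1 / 2) * b x) ≤
      (F z R μ l a + F z R μ l b) / 2
        - c₀ * ∫ x, (a x ^ ((5 : ℝ) / 6) - b x ^ ((5 : ℝ) / 6)) ^ 2 := by
  refine ⟨1 / 10, by norm_num, fun z R μ l a b ha hb => ?_⟩
  rw [F_eq, F_eq, F_eq, Att_lin z R l ha hb, integral_lin ha hb]
  have e1 := Kin_mid ha hb
  have e2 := Coul_convex ha hb (t := 1 / 2) (by norm_num) (by norm_num)
  have e3 : (1 - 1 / 2 : ℝ) = 1 / 2 := by norm_num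
  rw [e3] at e2
  linarith

/-! ### (d) scaling -/

/-- mass preserving dilation -/
noncomputable def dil (l : ℝ) (ρ : E3 → ℝ) : E3 → ℝ := fun x => (l ^ 3)⁻¹ * ρ (l⁻¹ • x)

theorem finrank_E3 : Module.finrank ℝ E3 = 3 := finrank_euclideanSpace_fin

theorem integral_scale {l : ℝ} (hl : 0 < l) (f : E3 → ℝ) :
    ∫ x, f (l⁻¹ • x) = l ^ 3 * ∫ x, f x := by
  rw [Measure.integral_comp_inv_smul_of_nonneg volume f hl.le, finrank_E3, smul_eq_mul]

theorem integrable_scale {l : ℝ} (hl : 0 < l) {f : E3 → ℝ} (hf : Integrable f) :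
    Integrable (fun x => f (l⁻¹ • x)) :=
  hf.comp_smul (inv_ne_zero hl.ne')

theorem rpow_dil {l : ℝ} (hl : 0 < l) {ρ : E3 → ℝ} (hρ : ∀ x, 0 ≤ ρ x) (x : E3) :
    dil l ρ x ^ ((5 : ℝ) / 3) = (l ^ 5)⁻¹ * ρ (l⁻¹ • x) ^ ((5 : ℝ) / 3) := by
  unfold dil
  rw [Real.mul_rpow (by positivity) (hρ _), Real.inv_rpow (by positivity)]
  congr 2
  rw [← Real.rpow_natCast, ← Real.rpow_mul hl.le, ← Real.rpow_natCast]
  norm_num

theorem Adm.dil {l : ℝ} (hl : 0 < l) {ρ : E3 → ℝ} (h : Adm ρ) : Adm (dil l ρ) := by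
  refine ⟨fun x => mul_nonneg (by positivity) (h.1 _), (integrable_scale hl h.2.1).const_mul _, ?_⟩
  simp_rw [rpow_dil hl h.1]
  exact (integrable_scale hl h.2.2).const_mul _

theorem integral_dil {l : ℝ} (hl : 0 < l) (ρ : E3 → ℝ) : ∫ x, dil l ρ x = ∫ x, ρ x := by
  unfold TF.dil
  rw [integral_const_mul, integral_scale hl]
  field_simp

theorem Kin_dil {l : ℝ} (hl : 0 < l) (ρ : E3 → ℝ) (hρ : ∀ x, 0 ≤ ρ x) :
    Kin (dil l ρ) = (l ^ 2)⁻¹ * Kin ρ := by
  unfold Kin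
  simp_rw [rpow_dil hl hρ]
  rw [integral_const_mul, integral_scale hl (fun x => ρ x ^ ((5 : ℝ) / 3))]
  field_simp

theorem Att_dil (z : Fin k → ℝ) (R : Fin k → E3) {l : ℝ} (hl : 0 < l) (ρ : E3 → ℝ) :
    Att z R l (dil l ρ) = l⁻¹ * Att z R 1 ρ := by
  unfold Att TF.dil
  have e : (fun x : E3 => (∑ i, z i / ‖x - l • R i‖) * ((l ^ 3)⁻¹ * ρ (l⁻¹ • x))) =
      fun x => (l ^ 4)⁻¹ * ((fun x : E3 => (∑ i, z i / ‖x - (1 : ℝ) • R i‖) * ρ x) (l⁻¹ • x)) := by
    ext x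
    have : ∀ i, z i / ‖x - l • R i‖ = l⁻¹ * (z i / ‖l⁻¹ • x - (1 : ℝ) • R i‖) := by
      intro i
      have e1 : x - l • R i = l • (l⁻¹ • x - (1 : ℝ) • R i) := by
        rw [smul_sub, smul_smul, mul_inv_cancel₀ hl.ne', one_smul, one_smul]
      rw [e1, norm_smul, Real.norm_of_nonneg hl.le]
      by_cases h : ‖l⁻¹ • x - (1 : ℝ) • R i‖ = 0
      · rw [h]; simp
      · field_simp
    simp_rw [this, ← Finset.mul_sum]
    ring_nf
  rw [e, integral_const_mul,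
    integral_scale hl (fun x : E3 => (∑ i, z i / ‖x - (1 : ℝ) • R i‖) * ρ x)]
  field_simp

theorem Coul_dil {l : ℝ} (hl : 0 < l) (a b : E3 → ℝ) :
    Coul (dil l a) (dil l b) = l⁻¹ * Coul a b := by
  unfold Coul TF.dil
  have e : ∀ x : E3, ∫ y : E3, (l ^ 3)⁻¹ * a (l⁻¹ • x) * ((l ^ 3)⁻¹ * b (l⁻¹ • y)) / ‖x - y‖ =
      (l ^ 4)⁻¹ * ((fun x : E3 => ∫ y : E3, a x * b y / ‖x - y‖) (l⁻¹ • x)) := by
    intro x
    have e0 : (fun y : E3 => (l ^ 3)⁻¹ * a (l⁻¹ • x) * ((l ^ 3)⁻¹ * b (l⁻¹ • y)) / ‖x - y‖) =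
        fun y => (l ^ 7)⁻¹ * ((fun y : E3 => a (l⁻¹ • x) * b y / ‖l⁻¹ • x - y‖) (l⁻¹ • y)) := by
      ext y
      have e1 : x - y = l • (l⁻¹ • x - l⁻¹ • y) := by
        rw [smul_sub, smul_smul, smul_smul, mul_inv_cancel₀ hl.ne', one_smul, one_smul]
      have e2 : ‖x - y‖ = l * ‖l⁻¹ • x - l⁻¹ • y‖ := by
        nth_rewrite 1 [e1]
        rw [norm_smul, Real.norm_of_nonneg hl.le]
      rw [e2]
      by_cases h : ‖l⁻¹ • x - l⁻¹ • y‖ = 0
      · simp only [h]; simp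
      · field_simp
    rw [e0, integral_const_mul,
      integral_scale hl (fun y : E3 => a (l⁻¹ • x) * b y / ‖l⁻¹ • x - y‖)]
    field_simp
  simp_rw [e]
  rw [integral_const_mul]
  rw [integral_scale hl (fun x : E3 => ∫ y : E3, a x * b y / ‖x - y‖)]
  field_simp

theorem dil_dil_inv {l : ℝ} (hl : 0 < l) (ρ : E3 → ℝ) : dil l (dil l⁻¹ ρ) = ρ := by
  ext x
  unfold TF.dil
  rw [inv_inv, smul_smul, mul_inv_cancel₀ hl.ne', one_smul]
  field_simp

theorem F_dil (z : Fin k → ℝ) (R : Fin k → E3) (μ : ℝ) {l : ℝ} (hl : 0 < l) (ρ : E3 → ℝ)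
    (hρ : ∀ x, 0 ≤ ρ x) :
    F z R μ l (dil l ρ) = (l ^ 2)⁻¹ * Kin ρ + l⁻¹ * (-Att z R 1 ρ + (1 / 2 : ℝ) * Coul ρ ρ)
      + μ * ∫ x, ρ x := by
  rw [F_eq, Kin_dil hl ρ hρ, Att_dil z R hl, Coul_dil hl, integral_dil hl]
  ring

end Pool.Agent.H29.TF
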