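import Pool.Agent.H29.TF.Heat

/-!
# Subordination of the Newton kernel to the heat kernel on `ℝ³`
`1 / ‖x‖ = 4π ∫_0^∞ hk t x dt`.
-/

open MeasureTheory Real Set
open scoped ENNReal

namespace Pool.Agent.H29.TF

theorem hk_E3 {t : ℝ} (ht : 0 < t) (x : E3) :
    hk t x = (4 * π) ^ (-(3 / 2) : ℝ) * (t ^ (-(3 / 2) : ℝ) * Real.exp (-(‖x‖ ^ 2 / 4) / t)) := by
  unfold hk
  rw [finrank_euclideanSpace_fin, Real.mul_rpow (by positivity) ht.le]
  have e1 : (-((3 : ℕ) : ℝ) / 2 : ℝ) = -(3 / 2) := by norm_num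
  rw [e1]
  have e2 : -‖x‖ ^ 2 / (4 * t) = -(‖x‖ ^ 2 / 4) / t := by field_simp
  rw [e2]; ring

theorem integrand_eq {a t : ℝ} (ht : 0 < t) :
    (|(-1 : ℝ)| * t ^ ((-1 : ℝ) - 1)) • ((t ^ (-1 : ℝ)) ^ (-(1 / 2) : ℝ) *
      Real.exp (-a * (t ^ (-1 : ℝ)) ^ (1 : ℝ))) = t ^ (-(3 / 2) : ℝ) * Real.exp (-a / t) := by
  rw [← Real.rpow_mul ht.le, ← Real.rpow_mul ht.le, abs_neg, abs_one, one_mul, smul_eq_mul,
    ← mul_assoc, ← Real.rpow_add ht]
  have e1 : ((-1 : ℝ) - 1) + (-1) * (-(1 / 2)) = -(3 / 2) := by norm_num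
  have e2 : (-1 : ℝ) * 1 = -1 := by norm_num
  rw [e1, e2, Real.rpow_neg_one]
  rfl

theorem integrableOn_sub {a : ℝ} (ha : 0 < a) :
    IntegrableOn (fun t : ℝ => t ^ (-(3 / 2) : ℝ) * Real.exp (-a / t)) (Ioi 0) := by
  have h1 := integrableOn_rpow_mul_exp_neg_mul_rpow (p := 1) (s := (-(1 / 2) : ℝ)) (b := a)
    (by norm_num) one_pos ha
  have h2 := (integrableOn_Ioi_comp_rpow_iff (fun x : ℝ => x ^ (-(1 / 2) : ℝ) *
    Real.exp (-a * x ^ (1 : ℝ))) (p := -1) (by norm_num)).2 h1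
  exact h2.congr_fun (fun t ht => integrand_eq ht) measurableSet_Ioi

theorem integral_sub_formula {a : ℝ} (ha : 0 < a) :
    ∫ t in Ioi (0 : ℝ), t ^ (-(3 / 2) : ℝ) * Real.exp (-a / t) = √(π / a) := by
  have h2 := integral_comp_rpow_Ioi (fun x : ℝ => x ^ (-(1 / 2) : ℝ) *
    Real.exp (-a * x ^ (1 : ℝ))) (p := -1) (by norm_num)
  rw [setIntegral_congr_fun measurableSet_Ioi (fun t ht => integrand_eq (a := a) ht)] at h2
  rw [h2]
  have h3 := Real.integral_rpow_mul_exp_neg_mul_Ioi (a := 1 / 2) (r := a) (by norm_num) ha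
  rw [Real.Gamma_one_half_eq] at h3
  have h4 : ∫ x in Ioi (0 : ℝ), x ^ (-(1 / 2) : ℝ) * Real.exp (-a * x ^ (1 : ℝ)) =
      ∫ t in Ioi (0 : ℝ), t ^ ((1 / 2 : ℝ) - 1) * Real.exp (-(a * t)) := by
    refine setIntegral_congr_fun measurableSet_Ioi fun t ht => ?_
    have e1 : (1 / 2 : ℝ) - 1 = -(1 / 2) := by norm_num
    simp only [e1, Real.rpow_one, neg_mul]
  rw [h4, h3, ← Real.sqrt_eq_rpow, ← Real.sqrt_mul (by positivity)]
  congr 1; ring

theorem integrableOn_hk_Ioi {x : E3} (hx : x ≠ 0) :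
    IntegrableOn (fun t => hk t x) (Ioi 0) := by
  have ha : 0 < ‖x‖ ^ 2 / 4 := by have := norm_pos_iff.2 hx; positivity
  have h1 : IntegrableOn (fun t : ℝ => (4 * π) ^ (-(3 / 2) : ℝ) *
      (t ^ (-(3 / 2) : ℝ) * Real.exp (-(‖x‖ ^ 2 / 4) / t))) (Ioi 0) :=
    Integrable.const_mul (integrableOn_sub ha) _
  exact h1.congr_fun (fun t ht => (hk_E3 ht x).symm) measurableSet_Ioi

/-- subordination formula for the Newton kernel -/
theorem integral_hk_Ioi {x : E3} (hx : x ≠ 0) :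
    4 * π * ∫ t in Ioi (0 : ℝ), hk t x = 1 / ‖x‖ := by
  have hn := norm_pos_iff.2 hx
  have ha : 0 < ‖x‖ ^ 2 / 4 := by positivity
  rw [setIntegral_congr_fun measurableSet_Ioi (fun t ht => hk_E3 ht x), integral_const_mul,
    integral_sub_formula ha]
  have e1 : √(π / (‖x‖ ^ 2 / 4)) = 2 * √π / ‖x‖ := by
    have : π / (‖x‖ ^ 2 / 4) = (2 * √π / ‖x‖) ^ 2 := by
      rw [div_pow, mul_pow, Real.sq_sqrt pi_pos.le]; field_simp; ring
    rw [this, Real.sqrt_sq (by positivity)]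
  have e2 : (4 * π) ^ (-(3 / 2) : ℝ) = (4 * π * (2 * √π))⁻¹ := by
    rw [Real.rpow_neg (by positivity)]
    congr 1
    have : (3 / 2 : ℝ) = 1 + 1 / 2 := by norm_num
    rw [this, Real.rpow_add (by positivity), Real.rpow_one, ← Real.sqrt_eq_rpow,
      Real.sqrt_mul (by norm_num)]
    have : √(4 : ℝ) = 2 := by
      rw [show (4 : ℝ) = 2 ^ 2 by norm_num]; exact Real.sqrt_sq (by norm_num)
    rw [this]
  rw [e1, e2]
  have := Real.sqrt_pos.2 pi_pos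
  field_simp

theorem lintegral_hk_Ioi {x : E3} (hx : x ≠ 0) :
    ENNReal.ofReal (1 / ‖x‖) =
      ENNReal.ofReal (4 * π) * ∫⁻ t in Ioi (0 : ℝ), ENNReal.ofReal (hk t x) := by
  rw [← integral_hk_Ioi hx, ENNReal.ofReal_mul (by positivity),
    ofReal_integral_eq_lintegral_ofReal (integrableOn_hk_Ioi hx)]
  exact (ae_restrict_iff' measurableSet_Ioi).2
    (Filter.Eventually.of_forall fun t ht => hk_nonneg (le_of_lt ht) x)

end Pool.Agent.H29.TF
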