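import Pool.Agent.H99.TF.Coul

/-!
# Integrability of the Newton potential of an admissible density
-/

open MeasureTheory Real Set
open scoped ENNReal

namespace Pool.Agent.H29.TF

/-- Young's inequality with a parameter, exponents `5/3`, `5/2` -/
theorem young_53 {s v c : ℝ} (hs : 0 ≤ s) (hv : 0 ≤ v) (hc : 0 < c) :
    s * v ≤ c * s ^ ((5 : ℝ) / 3) + c ^ (-(3 / 2) : ℝ) * v ^ ((5 : ℝ) / 2) := by
  have hpq : ((5 : ℝ) / 3).HolderConjugate (5 / 2) := by
    rw [Real.holderConjugate_iff]; norm_num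
  have h := Real.young_inequality_of_nonneg (a := c ^ ((3 : ℝ) / 5) * s)
    (b := c ^ (-(3 / 5) : ℝ) * v) (by positivity) (by positivity) hpq
  have e1 : c ^ ((3 : ℝ) / 5) * s * (c ^ (-(3 / 5) : ℝ) * v) = s * v := by
    have : c ^ ((3 : ℝ) / 5) * c ^ (-(3 / 5) : ℝ) = 1 := by
      rw [← Real.rpow_add hc]; norm_num
    calc _ = (c ^ ((3 : ℝ) / 5) * c ^ (-(3 / 5) : ℝ)) * (s * v) := by ring
      _ = _ := by rw [this, one_mul]
  rw [e1, Real.mul_rpow (by positivity) hs, Real.mul_rpow (by positivity) hv,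
    ← Real.rpow_mul hc.le, ← Real.rpow_mul hc.le] at h
  have e2 : (3 : ℝ) / 5 * (5 / 3) = 1 := by norm_num
  have e3 : (-(3 / 5) : ℝ) * (5 / 2) = -(3 / 2) := by norm_num
  rw [e2, e3, Real.rpow_one] at h
  have p1 : 0 ≤ c * s ^ ((5 : ℝ) / 3) := by positivity
  have p2 : 0 ≤ c ^ (-(3 / 2) : ℝ) * v ^ ((5 : ℝ) / 2) := by positivity
  linarith [show c * s ^ ((5 : ℝ) / 3) / (5 / 3) = (3 / 5) * (c * s ^ ((5 : ℝ) / 3)) by ring,
    show c ^ (-(3 / 2) : ℝ) * v ^ ((5 : ℝ) / 2) / (5 / 2) =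
      (2 / 5) * (c ^ (-(3 / 2) : ℝ) * v ^ ((5 : ℝ) / 2)) by ring]

/-- the truncated power `‖x‖^{-5/2}` on the ball of radius `r` -/
noncomputable def Nr (r : ℝ) (x : E3) : ℝ := (Iio r).indicator (fun y : ℝ => y ^ (-(5 / 2) : ℝ)) ‖x‖

theorem Nr_nonneg (r : ℝ) (x : E3) : 0 ≤ Nr r x := by
  unfold Nr
  by_cases h : ‖x‖ ∈ Iio r
  · rw [indicator_of_mem h]; positivity
  · rw [indicator_of_notMem h]

theorem integrableOn_rad (r : ℝ) :
    IntegrableOn (fun y : ℝ => y ^ (Module.finrank ℝ E3 - 1) •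
      (Iio r).indicator (fun y : ℝ => y ^ (-(5 / 2) : ℝ)) y) (Ioi 0) ∧
    (0 < r → ∫ y in Ioi (0 : ℝ), y ^ (Module.finrank ℝ E3 - 1) •
      (Iio r).indicator (fun y : ℝ => y ^ (-(5 / 2) : ℝ)) y = 2 * √r) := by
  have hfr : Module.finrank ℝ E3 = 3 := finrank_euclideanSpace_fin
  have e : ∀ y ∈ Ioi (0 : ℝ), y ^ (Module.finrank ℝ E3 - 1) •
      (Iio r).indicator (fun y : ℝ => y ^ (-(5 / 2) : ℝ)) y =
      (Iio r).indicator (fun y : ℝ => y ^ (-(1 / 2) : ℝ)) y := by
    intro y hy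
    have hy' : 0 < y := hy
    rw [hfr]
    by_cases h : y ∈ Iio r
    · rw [indicator_of_mem h, indicator_of_mem h, smul_eq_mul, ← Real.rpow_natCast,
        ← Real.rpow_add hy']
      norm_num
    · rw [indicator_of_notMem h, indicator_of_notMem h, smul_zero]
  constructor
  · rw [integrableOn_congr_fun e measurableSet_Ioi, IntegrableOn,
      integrable_indicator_iff measurableSet_Iio, IntegrableOn,
      Measure.restrict_restrict measurableSet_Iio]
    have : Iio r ∩ Ioi 0 = Ioo 0 r := by ext y; simp [and_comm]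
    rw [this]
    by_cases hr : 0 < r
    · exact (intervalIntegral.integrableOn_Ioo_rpow_iff hr).2 (by norm_num)
    · rw [Ioo_eq_empty (by simpa using hr)]
      simp
  · intro hr
    rw [setIntegral_congr_fun measurableSet_Ioi e, integral_indicator measurableSet_Iio,
      Measure.restrict_restrict measurableSet_Iio]
    have : Iio r ∩ Ioi 0 = Ioo 0 r := by ext y; simp [and_comm]
    rw [this, ← integral_Ioc_eq_integral_Ioo, ← intervalIntegral.integral_of_le hr.le,
      integral_rpow (Or.inl (by norm_num))]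
    rw [show (-(1 / 2) : ℝ) + 1 = 1 / 2 by norm_num, Real.zero_rpow (by norm_num),
      Real.sqrt_eq_rpow]
    ring

theorem integrable_Nr (r : ℝ) : Integrable (Nr r) := by
  unfold Nr
  rw [integrable_fun_norm_addHaar (E := E3) volume
    (f := (Iio r).indicator (fun y : ℝ => y ^ (-(5 / 2) : ℝ)))]
  exact (integrableOn_rad r).1

/-- `6 |B_1| = 8π` -/
noncomputable def c3 : ℝ := 6 * (volume : Measure E3).real (Metric.ball 0 1)

theorem c3_pos : 0 < c3 := by
  unfold c3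
  have : 0 < (volume : Measure E3).real (Metric.ball 0 1) := by
    rw [Measure.real]
    exact ENNReal.toReal_pos (Metric.measure_ball_pos _ _ one_pos).ne' measure_ball_lt_top.ne
  positivity

theorem integral_Nr {r : ℝ} (hr : 0 < r) : ∫ x, Nr r x = c3 * √r := by
  unfold Nr
  rw [integral_fun_norm_addHaar (E := E3) volume
    ((Iio r).indicator (fun y : ℝ => y ^ (-(5 / 2) : ℝ))), (integrableOn_rad r).2 hr]
  have hfr : Module.finrank ℝ E3 = 3 := finrank_euclideanSpace_fin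
  rw [hfr, c3, nsmul_eq_mul, smul_eq_mul]
  push_cast
  ring

theorem newton_pointwise {c r s : ℝ} (hc : 0 < c) (hr : 0 < r) (hs : 0 ≤ s) (x : E3) :
    s / ‖x‖ ≤ c * s ^ ((5 : ℝ) / 3) + c ^ (-(3 / 2) : ℝ) * Nr r x + (1 / r) * s := by
  have p1 : 0 ≤ c * s ^ ((5 : ℝ) / 3) := by positivity
  have p2 : 0 ≤ c ^ (-(3 / 2) : ℝ) * Nr r x := mul_nonneg (by positivity) (Nr_nonneg r x)
  have p3 : 0 ≤ (1 / r) * s := by positivity
  by_cases h : ‖x‖ < r
  · by_cases hx : ‖x‖ = 0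
    · rw [hx, div_zero]; positivity
    · have hx' : 0 < ‖x‖ := lt_of_le_of_ne (norm_nonneg _) (Ne.symm hx)
      have hy := young_53 (v := ‖x‖⁻¹) hs (by positivity) hc
      have e : (‖x‖⁻¹) ^ ((5 : ℝ) / 2) = Nr r x := by
        unfold Nr
        rw [indicator_of_mem (show ‖x‖ ∈ Iio r from h), Real.inv_rpow hx'.le,
          Real.rpow_neg hx'.le]
      rw [e] at hy
      rw [div_eq_mul_inv]
      linarith
  · have h' : r ≤ ‖x‖ := not_lt.1 h
    have : s / ‖x‖ ≤ (1 / r) * s := by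
      rw [div_eq_mul_inv, mul_comm, one_div]
      gcongr
    linarith

theorem aesm_newton {ρ : E3 → ℝ} (h : AEStronglyMeasurable ρ volume) (q : E3) :
    AEStronglyMeasurable (fun x => ρ x / ‖x - q‖) volume := by
  have : Measurable (fun x : E3 => ‖x - q‖⁻¹) := by fun_prop
  simp_rw [div_eq_mul_inv]
  exact h.mul this.aestronglyMeasurable

theorem integrable_bound {ρ : E3 → ℝ} (h : Adm ρ) (q : E3) (c r : ℝ) :
    Integrable (fun x => c * ρ x ^ ((5 : ℝ) / 3) + c ^ (-(3 / 2) : ℝ) * Nr r (x - q)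
      + (1 / r) * ρ x) :=
  ((h.2.2.const_mul c).add (((integrable_Nr r).comp_sub_right q).const_mul _)).add
    (h.2.1.const_mul _)

theorem integrable_newton {ρ : E3 → ℝ} (h : Adm ρ) (q : E3) :
    Integrable (fun x => ρ x / ‖x - q‖) := by
  refine Integrable.mono' (integrable_bound h q 1 1) (aesm_newton h.2.1.aestronglyMeasurable q)
    (Filter.Eventually.of_forall fun x => ?_)
  rw [Real.norm_of_nonneg (div_nonneg (h.1 x) (norm_nonneg _))]
  exact newton_pointwise one_pos one_pos (h.1 x) (x - q)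

theorem newton_le_aux {c r : ℝ} (hc : 0 < c) (hr : 0 < r) (q : E3) {s : E3 → ℝ} (hs : Adm s) :
    ∫ x, s x / ‖x - q‖ ≤
      c * (∫ x, s x ^ ((5 : ℝ) / 3)) + c3 * c ^ (-(3 / 2) : ℝ) * √r + (1 / r) * ∫ x, s x := by
  calc ∫ x, s x / ‖x - q‖ ≤ ∫ x, (c * s x ^ ((5 : ℝ) / 3) + c ^ (-(3 / 2) : ℝ) * Nr r (x - q)
        + (1 / r) * s x) :=
        integral_mono (integrable_newton hs q) (integrable_bound hs q c r)
          fun x => newton_pointwise hc hr (hs.1 x) (x - q)
    _ = _ := by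
        have i1 := hs.2.2.const_mul c
        have i2 := ((integrable_Nr r).comp_sub_right q).const_mul (c ^ (-(3 / 2) : ℝ))
        have i3 := hs.2.1.const_mul (1 / r)
        have i12 : Integrable (fun x => c * s x ^ ((5 : ℝ) / 3) +
            c ^ (-(3 / 2) : ℝ) * Nr r (x - q)) := i1.add i2
        rw [integral_add i12 i3, integral_add i1 i2]
        rw [integral_const_mul, integral_const_mul, integral_const_mul,
          integral_sub_right_eq_self (fun x => Nr r x) q, integral_Nr hr]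
        ring

theorem newton_le : ∃ C : ℝ, 0 < C ∧ ∀ c r : ℝ, 0 < c → 0 < r → ∀ (q : E3) (s : E3 → ℝ), Adm s →
    ∫ x, s x / ‖x - q‖ ≤
      c * (∫ x, s x ^ ((5 : ℝ) / 3)) + C * c ^ (-(3 / 2) : ℝ) * √r + (1 / r) * ∫ x, s x :=
  ⟨c3, c3_pos, fun _ _ hc hr q _ hs => newton_le_aux hc hr q hs⟩

end Pool.Agent.H29.TF
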